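import Pool.Agent.Helper73.NComp.Bridge

namespace Pool.Agent.Results.MP_6a4164_lc.FixedNotNCompact

open Pool.Agent.Helper73.Sym (IsZF)
open Pool.Agent.Helper73.Off (IsOmega)
open Pool.Agent.Helper73.NComp.Official

/-- There is a model `(M, ∈)` of ZF in which there is a zero-dimensional `T₁`-space `(X, T)` all
of whose `c_δ`-ultrafilters with the countable intersection property are fixed and which is
not `ℕ`-compact (`w` is the set of natural numbers of the model). -/
theorem result : ∃ (M : Type) (_ : Membership M M), IsZF M ∧ ∃ w X T : M,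
    IsOmega w ∧ IsTop X T ∧ ZeroDim X T ∧ T1 X T ∧
    (∀ F : M, CdUltrafilter w X T F → Cip w F → Fixed F) ∧ ¬ NCompact w X T :=
  Pool.Agent.Helper73.NComp.exists_model_official

end Pool.Agent.Results.MP_6a4164_lc.FixedNotNCompact
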